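import Pool.Agent.H53.QEX.Main

set_option autoImplicit false

namespace Pool.Agent.Results.MP_e17bc1_co.ExactExponent

/-- The queens graph on the `n × n` board: distinct squares sharing a row, a column,
a diagonal or an antidiagonal are adjacent. -/
def queens (n : ℕ) : SimpleGraph (Fin n × Fin n) where
  Adj a b := a ≠ b ∧ (a.1 = b.1 ∨ a.2 = b.2 ∨
    (a.1.val : ℤ) - a.2.val = b.1.val - b.2.val ∨ (a.1.val : ℤ) + a.2.val = b.1.val + b.2.val)
  symm := ⟨by
    rintro a b ⟨h, h'⟩
    exact ⟨h.symm, h'.imp Eq.symm (Or.imp Eq.symm (Or.imp Eq.symm Eq.symm))⟩⟩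
  loopless := ⟨fun a h => h.1 rfl⟩

/-- `w` belongs to the closed neighbourhood `N[v]`. -/
def InClosedNbhd {V : Type} (G : SimpleGraph V) (v w : V) : Prop := w = v ∨ G.Adj v w

/-- `S` is irredundant: every member has a private neighbour. -/
def Irredundant {V : Type} (G : SimpleGraph V) (S : Finset V) : Prop :=
  ∀ v ∈ S, ∃ w, InClosedNbhd G v w ∧ ∀ u ∈ S, u ≠ v → ¬ InClosedNbhd G u w

/-- The upper irredundance number: the largest cardinality of an irredundant set. -/
noncomputable def upperIrr {V : Type} (G : SimpleGraph V) : ℕ :=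
  sSup {k | ∃ S : Finset V, Irredundant G S ∧ S.card = k}

/-- The sums-differences inequality with exponent `β`: if along a finite set `A` of pairs of
integers each of `x`, `y` and `x + y` takes at most `N` values then `x - y` takes at most `N ^ β`
values. -/
def SumsDifferences (β : ℝ) : Prop :=
  ∀ A : Finset (ℤ × ℤ), ((A.image (fun z => z.1 - z.2)).card : ℝ) ≤
    ((max (A.image (fun z => z.1)).card (max (A.image (fun z => z.2)).card
      (A.image (fun z => z.1 + z.2)).card) : ℕ) : ℝ) ^ β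

/-- There is a least exponent `α` in the sums-differences inequality, and
`n ^ (1 / α) ≤ 6 n - 2 - IR(Q_n)` and `6 n - IR(Q_n) = O(n ^ (1 / α + ε))`. -/
theorem result : ∃ α : ℝ, IsLeast {β : ℝ | SumsDifferences β} α ∧
    (∀ n : ℕ, 1 ≤ n → (n : ℝ) ^ (1 / α) ≤ 6 * (n : ℝ) - 2 - upperIrr (queens n)) ∧
    ∀ ε : ℝ, 0 < ε → ∃ C : ℝ, ∀ n : ℕ, 1 ≤ n →
      6 * (n : ℝ) - upperIrr (queens n) ≤ C * (n : ℝ) ^ (1 / α + ε) :=
  Pool.QEX53.main

end Pool.Agent.Results.MP_e17bc1_co.ExactExponent
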