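import Pool.Agent.H20.SPL.LowerBoundProof

set_option autoImplicit false

namespace Pool.Agent.Results.MP_e17bc1_co.LowerBound

/-- **Main theorem.** For every `ε > 0`,
`IR(Q_n) ≥ 6 n - C n ^ (1 - (2/3) (log 2 / log 3) + ε)`; the exponent is `0.5794 + ε`. -/
theorem result (ε : ℝ) (hε : 0 < ε) : ∃ C : ℝ, ∀ n : ℕ, 1 ≤ n →
    6 * (n : ℝ) - C * (n : ℝ) ^ (1 - 2 / 3 * (Real.log 2 / Real.log 3) + ε) ≤
      (upperIrr (queens n) : ℝ) :=
  result_proof ε hε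

end Pool.Agent.Results.MP_e17bc1_co.LowerBound
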