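import Pool.Agent.H53.QEX.Main
import Pool.Agent.H38.SE.Fin

set_option autoImplicit false

namespace Pool.Agent.Results.MP_e17bc1_co.UpperBound

/-- The queens graph on the `n × n` board: distinct squares sharing a row, a column,
a diagonal or an antidiagonal are adjacent. -/
def queens (n : ℕ) : SimpleGraph (Fin n × Fin n) where
  Adj a b := a ≠ b ∧ (a.1 = b.1 ∨ a.2 = b.2 ∨
    (a.1.val : ℤ) - a.2.val = b.1.val - b.2.val ∨ (a.1.val : ℤ) + a.2.val = b.1.val + b.2.val)
  symm := ⟨by
    rintro a b ⟨h, h'⟩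
    exact ⟨h.symm, h'.imp Eq.symm (Or.imp Eq.symm (Or.imp Eq.symm Eq.symm))⟩⟩
  loopless := ⟨fun a h => h.1 rfl⟩

/-- `w` belongs to the closed neighbourhood `N[v]`. -/
def InClosedNbhd {V : Type} (G : SimpleGraph V) (v w : V) : Prop := w = v ∨ G.Adj v w

/-- `S` is irredundant: every member has a private neighbour. -/
def Irredundant {V : Type} (G : SimpleGraph V) (S : Finset V) : Prop :=
  ∀ v ∈ S, ∃ w, InClosedNbhd G v w ∧ ∀ u ∈ S, u ≠ v → ¬ InClosedNbhd G u w

/-- The upper irredundance number: the largest cardinality of an irredundant set. -/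
noncomputable def upperIrr {V : Type} (G : SimpleGraph V) : ℕ :=
  sSup {k | ∃ S : Finset V, Irredundant G S ∧ S.card = k}

theorem sd_122_67 : Pool.QEX53.SumsDifferences (122 / 67) := by
  intro A
  have h := Pool.Agent.H38.SE.three_slopes_max A
  rw [Nat.cast_max, Nat.cast_max, ← max_assoc]
  exact h

/-- Every irredundant set of the queens graph leaves at least `n ^ (67/122)` of the `6 n - 2` lines
unused: `IR(Q_n) ≤ 6 n - 2 - n ^ (67/122)` for all `n ≥ 1`. -/
theorem result (n : ℕ) (hn : 1 ≤ n) :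
    (upperIrr (queens n) : ℝ) ≤ 6 * (n : ℝ) - 2 - (n : ℝ) ^ ((67 : ℝ) / 122) := by
  have h : (n : ℝ) ^ (1 / ((122 : ℝ) / 67)) ≤ 6 * (n : ℝ) - 2 - upperIrr (queens n) :=
    Pool.QEX53.deficiency_ge sd_122_67 n hn
  rw [one_div_div] at h
  linarith

end Pool.Agent.Results.MP_e17bc1_co.UpperBound
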